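import Pool.Agent.EG11.Simp

/-!
# Coxeter groups of acyclic 2-complexes virtually have geometric dimension 2

Let `K` be a finite simplicial complex of dimension at most 2, all of whose reduced integral
homology groups vanish (fullness of the triangulation and non-simple-connectedness are not needed),
and let `Γ = (coxeterMatrix K).Group` be the Coxeter group with one generator for each simplex of
`K`, with `m(σ, τ) = 2` if one of the distinct simplices `σ`, `τ` is a face of the other one and
`m(σ, τ) = ∞` otherwise.  Then a normal subgroup `Γ₀` of finite index in `Γ` acts freely, with
finitely many orbits of cells, on a contractible combinatorial 2-complex `X`; so `X / Γ₀` is a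
finite 2-dimensional `K(Γ₀, 1)`.

The definitions used in the statement are in `Pool.Agent.EG11.Defs`.

Idea of the proof.  Write `v_p`, `v_e`, `v_t` for the generators attached to vertices, edges and
triangles.  Let `ℓ` be a large prime and `π : Γ → D_ℓ` the homomorphism to the dihedral group which
sends the `v_e` to distinct reflections and the `v_p`, `v_t` to `1`.  The vertices of `X` are `b(w)`
for `w ∈ Γ`, together with the cosets of `⟨v_p⟩`, of `⟨v_t⟩` and of `⟨v_p, v_t⟩` (`p < t`), joined
by edges for inclusion and, for a generator `v_e` with `e` comparable to `p` and `t`, by edges
between `c` and `c v_e`; instead of filling in all squares of the Davis complex at `b(w)` one only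
takes part of them: for the elements `w` with `π(w)` a reflection, the 2-cells expressing that the
paths from `b(w)` to `⟨v_t⟩w` through the two endpoints of `e` are homotopic are omitted along a
spanning tree of the Cayley graph of `D_ℓ` for each triangle `t`, and for `w` with `π(w)` a rotation
there is one 2-cell for each edge `e` of `K`, twisted by a power of a loop `d(w)`, the powers being
given by a cochain `B_t` on `K` with coboundary the dual of `t`, which exists as `H²(K; ℤ) = 0`; the
loop `d(w)` is killed by the relation which is missing for the root of the spanning tree.
-/

namespace Pool.Agent.Results.MP_e51632_al.EilenbergGanea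

open Pool.Agent.EG11

/-- Let `K` be a finite simplicial complex of dimension at most 2 with vanishing reduced integral
homology.  The Coxeter group on the simplices of `K`, with `m(σ, τ) = 2` for comparable distinct
simplices and `∞` otherwise, has a normal subgroup of finite index which has a finite 2-dimensional
classifying space. -/
theorem result {ι : Type} [Fintype ι] [LinearOrder ι] (K : AbstractSimplicialComplex ι)
    (hdim : ∀ σ ∈ K, σ.card ≤ 3) (hac : Acyclic K) :
    ∃ Γ₀ : Subgroup (coxeterMatrix K).Group, Γ₀.Normal ∧ Γ₀.FiniteIndex ∧
      HasFiniteTwoDimClassifyingSpace Γ₀ :=
  main_simp hdim hac

end Pool.Agent.Results.MP_e51632_al.EilenbergGanea
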